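import Pool.Agent.helper50.BS.SpecU

set_option autoImplicit false
set_option linter.unusedVariables false
set_option linter.dupNamespace false

open scoped Classical

noncomputable section

namespace Pool.Agent.helper50.BT

open Pool.Agent.helper81.PL

theorem UDEC (h1 : UA1_stmt) (hTE1 : BS.TE1_stmt) (hTE2 : BS.TE2_stmt) (hTR4 : BS.TR4_stmt) :
    UDEC_stmt := by
  intro n k E h
  obtain ⟨hdl, hEW, htt, hdlE, hlt⟩ := h1 n E h
  have hV : ∀ e ∈ (ig n E h).E, (ig n E h).s e ∈ Finset.range n ∧
      (ig n E h).t e ∈ Finset.range n := by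
    intro e he
    have h2 := h e he
    refine ⟨Finset.mem_range.2 ?_, Finset.mem_range.2 ?_⟩
    · exact h2.1.trans h2.2
    · exact h2.2
  have key := hTE1 (ig n E h) (Finset.range n) k (n / 2) hV
  have hR : (∃ A ⊆ Finset.range n, A.card = n / 2 ∧ helper81.BS.dd n E A ≤ k) ↔
      ∃ A1 ⊆ Finset.range n, A1.card = n / 2 ∧ ((ig n E h).dl A1).card ≤ k := by
    simp only [hdl]
    exact Iff.rfl
  rw [hR, key]
  constructor
  · rintro ⟨M, _, _, c, hc, hne⟩
    refine ⟨c, hc, Nat.pos_of_ne_zero ?_⟩
    intro h0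
    rw [h0, Nat.cast_zero] at hne
    exact hne rfl
  · rintro ⟨c, hc, hpos⟩
    have hle := hTE2 (ig n E h) (Finset.range n) ∅ (n / 2) c
    have hcard : ((ig n E h).EW (Finset.range n)).card ≤ n * n := by
      have h3 : (ig n E h).EW (Finset.range n) ⊆ Finset.range (n * n) := by
        intro e he
        rw [Finset.mem_range]
        exact hlt e (Finset.mem_filter.1 he).1
      have h4 := Finset.card_le_card h3
      rwa [Finset.card_range] at h4
    have hlt2 : BS.cnt (ig n E h) (Finset.range n) ∅ (n / 2) c < 2 ^ (n + n * n + 1) := by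
      refine lt_of_le_of_lt hle (Nat.pow_lt_pow_right (by norm_num) ?_)
      rw [Finset.card_range]
      omega
    obtain ⟨m, hm1, hm2, hm3⟩ := hTR4 _ _ hpos hlt2
    exact ⟨m, hm1, hm2, c, hc, hm3⟩

end Pool.Agent.helper50.BT

end
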